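import Pool.Agent.Helper676.CS12

/-! # General lattices: unfolding -/

set_option autoImplicit false
set_option linter.unusedSectionVars false

namespace Pool.Agent.H172R3.CSG

open MeasureTheory Filter Topology Set
open Pool.Agent.Helper676

/-- lattice vector -/
noncomputable def lv (ω₁ ω₂ : ℝ × ℝ) (a : ℤ × ℤ) : ℝ × ℝ := (a.1 : ℝ) • ω₁ + (a.2 : ℝ) • ω₂

/-- the determinant of the periods -/
noncomputable def dt (ω₁ ω₂ : ℝ × ℝ) : ℝ := ω₁.1 * ω₂.2 - ω₁.2 * ω₂.1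

/-- coordinates with respect to the periods -/
noncomputable def AA (ω₁ ω₂ : ℝ × ℝ) (hδ : dt ω₁ ω₂ ≠ 0) : (ℝ × ℝ) ≃ₗ[ℝ] (ℝ × ℝ) where
  toFun y := y.1 • ω₁ + y.2 • ω₂
  invFun z := ((z.1 * ω₂.2 - z.2 * ω₂.1) / dt ω₁ ω₂, (ω₁.1 * z.2 - ω₁.2 * z.1) / dt ω₁ ω₂)
  map_add' x y := by
    ext <;> simp <;> ring
  map_smul' t y := by
    ext <;> simp <;> ring
  left_inv y := by
    ext
    · simp only [Prod.fst_add, Prod.smul_fst, Prod.snd_add, Prod.smul_snd, smul_eq_mul]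
      rw [div_eq_iff hδ]; unfold dt; ring
    · simp only [Prod.fst_add, Prod.smul_fst, Prod.snd_add, Prod.smul_snd, smul_eq_mul]
      rw [div_eq_iff hδ]; unfold dt; ring
  right_inv z := by
    ext
    · simp only [Prod.fst_add, Prod.smul_fst, smul_eq_mul]
      field_simp
      unfold dt; ring
    · simp only [Prod.snd_add, Prod.smul_snd, smul_eq_mul]
      field_simp
      unfold dt; ring

section

variable {ω₁ ω₂ : ℝ × ℝ} (hδ : dt ω₁ ω₂ ≠ 0)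

theorem AA_apply (y : ℝ × ℝ) : AA ω₁ ω₂ hδ y = y.1 • ω₁ + y.2 • ω₂ := rfl

theorem AA_lt (y : ℝ × ℝ) (a : ℤ × ℤ) :
    AA ω₁ ω₂ hδ (y + CS.lt 1 a) = AA ω₁ ω₂ hδ y + lv ω₁ ω₂ a := by
  rw [map_add]
  congr 1
  rw [AA_apply]
  unfold CS.lt lv
  simp

theorem det_AA : LinearMap.det (AA ω₁ ω₂ hδ : (ℝ × ℝ) →ₗ[ℝ] (ℝ × ℝ)) = dt ω₁ ω₂ := by
  rw [← LinearMap.det_toMatrix (Module.Basis.finTwoProd ℝ), Matrix.det_fin_two]
  simp [LinearMap.toMatrix_apply, AA_apply, dt]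
  ring

theorem cont_AA : Continuous (AA ω₁ ω₂ hδ) :=
  (AA ω₁ ω₂ hδ : (ℝ × ℝ) →ₗ[ℝ] (ℝ × ℝ)).continuous_of_finiteDimensional

theorem emb_AA : MeasurableEmbedding (AA ω₁ ω₂ hδ) :=
  (AA ω₁ ω₂ hδ).toContinuousLinearEquiv.toHomeomorph.measurableEmbedding

theorem map_AA : Measure.map (AA ω₁ ω₂ hδ) (volume : Measure (ℝ × ℝ)) =
    ENNReal.ofReal |(dt ω₁ ω₂)⁻¹| • volume := by
  have h := Measure.map_linearMap_addHaar_eq_smul_addHaar (volume : Measure (ℝ × ℝ))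
    (f := (AA ω₁ ω₂ hδ : (ℝ × ℝ) →ₗ[ℝ] (ℝ × ℝ))) (by rw [det_AA]; exact hδ)
  rw [det_AA] at h
  exact h

/-- the area of the cell -/
noncomputable def ar (ω₁ ω₂ : ℝ × ℝ) : ℝ := |dt ω₁ ω₂|

theorem ar_pos (hδ : dt ω₁ ω₂ ≠ 0) : 0 < ar ω₁ ω₂ := abs_pos.2 hδ

theorem integral_AA (h : ℝ × ℝ → ℝ) :
    ∫ y, h (AA ω₁ ω₂ hδ y) = (ar ω₁ ω₂)⁻¹ * ∫ z, h z := by
  rw [← (emb_AA hδ).integral_map, map_AA, integral_smul_measure, abs_inv,
    ENNReal.toReal_ofReal (by positivity), smul_eq_mul]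
  rfl

theorem integrable_AA {h : ℝ × ℝ → ℝ} (hh : Integrable h) :
    Integrable (fun y => h (AA ω₁ ω₂ hδ y)) := by
  have h1 : Integrable h (Measure.map (AA ω₁ ω₂ hδ) (volume : Measure (ℝ × ℝ))) := by
    rw [map_AA]
    exact hh.smul_measure ENNReal.ofReal_ne_top
  exact ((emb_AA hδ).integrable_map_iff).1 h1

/-- a property that holds almost everywhere in the plane holds almost everywhere in the cell -/
theorem ae_AA {p : ℝ × ℝ → Prop} (h : ∀ᵐ z, p z) : ∀ᵐ y, p (AA ω₁ ω₂ hδ y) := by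
  have h1 : ∀ᵐ z ∂(Measure.map (AA ω₁ ω₂ hδ) (volume : Measure (ℝ × ℝ))), p z := by
    rw [map_AA]
    exact Measure.ae_smul_measure h _
  exact (emb_AA hδ).ae_map_iff.1 h1

/-- average over the cell -/
noncomputable def Cav (g : ℝ × ℝ → ℝ) : ℝ := ∫ y in CS.Qc 1, g (AA ω₁ ω₂ hδ y)

theorem hasSum_unfold {h : ℝ × ℝ → ℝ} (hh : Integrable h) :
    HasSum (fun a => Cav hδ (fun z => h (z + lv ω₁ ω₂ a))) ((ar ω₁ ω₂)⁻¹ * ∫ z, h z) := by
  have h1 := CS.hasSum_tile (n := 1) le_rfl (integrable_AA hδ hh)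
  rw [integral_AA] at h1
  simp only [AA_lt] at h1
  exact h1

theorem integral_unfold {h : ℝ × ℝ → ℝ} (hh : Integrable h) :
    Cav hδ (fun z => ∑' a, h (z + lv ω₁ ω₂ a)) = (ar ω₁ ω₂)⁻¹ * ∫ z, h z := by
  have h1 := CS.integral_tile (n := 1) le_rfl (integrable_AA hδ hh)
  rw [integral_AA] at h1
  simp only [AA_lt] at h1
  exact h1

theorem lv_neg (a : ℤ × ℤ) : lv ω₁ ω₂ (-a) = - lv ω₁ ω₂ a := by
  unfold lv
  simp only [Prod.fst_neg, Prod.snd_neg, Int.cast_neg, neg_smul]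
  abel

theorem lv_add (a b : ℤ × ℤ) : lv ω₁ ω₂ (a + b) = lv ω₁ ω₂ a + lv ω₁ ω₂ b := by
  unfold lv
  simp only [Prod.fst_add, Prod.snd_add, Int.cast_add, add_smul]
  abel

/-- the indicator of the cell -/
noncomputable def χc : ℝ × ℝ → ℝ := (AA ω₁ ω₂ hδ '' CS.Qc 1).indicator 1

theorem meas_cell : MeasurableSet (AA ω₁ ω₂ hδ '' CS.Qc 1) :=
  (emb_AA hδ).measurableSet_image.2 (CS.measurableSet_Qc 1)

theorem bdd_cell : Bornology.IsBounded (AA ω₁ ω₂ hδ '' CS.Qc 1) := by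
  have h1 : IsCompact (AA ω₁ ω₂ hδ '' (Icc (0 : ℝ) 1 ×ˢ Icc (0 : ℝ) 1)) :=
    (isCompact_Icc.prod isCompact_Icc).image (cont_AA hδ)
  refine h1.isBounded.subset (image_mono ?_)
  unfold CS.Qc
  simp only [Nat.cast_one]
  exact Set.prod_mono Ico_subset_Icc_self Ico_subset_Icc_self

theorem integrable_χc : Integrable (χc hδ) := by
  unfold χc
  rw [integrable_indicator_iff (meas_cell hδ)]
  exact integrableOn_const (bdd_cell hδ).measure_lt_top.ne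

theorem hcs_χc : ∃ R : ℝ, ∀ z, R < ‖z‖ → χc hδ z = 0 := by
  obtain ⟨R, hR⟩ := (bdd_cell hδ).subset_closedBall 0
  refine ⟨R, fun z hz => ?_⟩
  unfold χc
  refine indicator_of_notMem (fun h0 => ?_) _
  have := hR h0
  rw [Metric.mem_closedBall, dist_zero_right] at this
  linarith

/-- periodisation of a convolution with the indicator of the cell -/
theorem cv_χc (k : ℝ × ℝ → ℝ) (z : ℝ × ℝ) :
    CS.cv k (χc hδ) z = ar ω₁ ω₂ * Cav hδ (fun w => k (z - w)) := by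
  unfold CS.cv Cav
  have h1 := integral_AA hδ (fun w => k (z - w) * χc hδ w)
  have har := ar_pos hδ
  rw [eq_inv_mul_iff_mul_eq₀ har.ne'] at h1
  rw [← h1]
  congr 1
  rw [← integral_indicator (CS.measurableSet_Qc 1)]
  congr 1
  ext y
  by_cases hy : y ∈ CS.Qc 1
  · rw [indicator_of_mem hy]
    unfold χc
    rw [indicator_of_mem (mem_image_of_mem _ hy)]
    simp
  · rw [indicator_of_notMem hy]
    unfold χc
    rw [indicator_of_notMem (fun h0 => hy (((AA ω₁ ω₂ hδ).injective.mem_set_image).1 h0))]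
    simp

theorem hasSum_cv {k : ℝ × ℝ → ℝ} (hk : Integrable k) (z : ℝ × ℝ) :
    HasSum (fun a => CS.cv k (χc hδ) (z + lv ω₁ ω₂ a)) (∫ w, k w) := by
  have har := ar_pos hδ
  have h1 := (hasSum_unfold hδ (hk.comp_sub_left z)).mul_left (ar ω₁ ω₂)
  rw [integral_sub_left_eq_self k volume z, ← mul_assoc, mul_inv_cancel₀ har.ne', one_mul] at h1
  have h2 := (Equiv.neg (ℤ × ℤ)).hasSum_iff.2 h1
  refine h2.congr_fun fun a => ?_
  rw [cv_χc]
  simp only [Function.comp, Equiv.neg_apply, lv_neg]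
  congr 2
  ext w
  congr 1
  abel

/-- integral of a periodic function against a periodised one -/
theorem periodic_mul {g ψ : ℝ × ℝ → ℝ} (hg : ∀ a z, g (z + lv ω₁ ω₂ a) = g z)
    (hi : Integrable (fun z => g z * ψ z)) {c : ℝ}
    (hψ : ∀ z, ∑' a, ψ (z + lv ω₁ ω₂ a) = c) :
    ∫ z, g z * ψ z = ar ω₁ ω₂ * (c * Cav hδ g) := by
  have har := ar_pos hδ
  have h1 := integral_unfold hδ hi
  rw [eq_comm, inv_mul_eq_iff_eq_mul₀ har.ne'] at h1
  rw [h1]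
  congr 1
  unfold Cav
  rw [← integral_const_mul]
  congr 1
  ext y
  simp only [hg]
  rw [tsum_mul_left, hψ]
  ring

end

end Pool.Agent.H172R3.CSG
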