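import Pool.Agent.H172R3.CSG.S

/-! # The improved necessary condition -/

set_option autoImplicit false
set_option linter.unusedSectionVars false

namespace Pool.Agent.H172R3.CSG

open MeasureTheory Filter Topology Set
open Pool.Agent.Helper676

section

variable {ω₁ ω₂ : ℝ × ℝ} (hδ : dt ω₁ ω₂ ≠ 0) {l : ℝ} {N : ℕ} {p : Fin N → ℝ × ℝ}
  {u : ℝ × ℝ → ℝ}

/-- the lifts of the vortex points -/
noncomputable def PT (ω₁ ω₂ : ℝ × ℝ) (p : Fin N → ℝ × ℝ) (q : Fin N × (ℤ × ℤ)) : ℝ × ℝ :=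
  p q.1 + lv ω₁ ω₂ q.2

/-- points near many vortices -/
def SS (ω₁ ω₂ : ℝ × ℝ) (l : ℝ) (p : Fin N → ℝ × ℝ) : Set (ℝ × ℝ) :=
  {z | ∃ r : ℝ, 0 < r ∧ ∃ T : Finset (Fin N × (ℤ × ℤ)),
    (∀ q ∈ T, CS.sq (z - PT ω₁ ω₂ p q) < r ^ 2) ∧ 2 * l * r ^ 2 ≤ T.card}

theorem isOpen_SS : IsOpen (SS ω₁ ω₂ l p) := by
  rw [isOpen_iff_mem_nhds]
  rintro z ⟨r, hr, T, hT, hcard⟩
  have hev : ∀ᶠ y in 𝓝 z, ∀ q ∈ T, CS.sq (y - PT ω₁ ω₂ p q) < r ^ 2 := by
    rw [Filter.eventually_all_finset]
    intro q hq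
    have hc : ContinuousAt (fun y : ℝ × ℝ => CS.sq (y - PT ω₁ ω₂ p q)) z :=
      (CS.continuous_sq.comp (continuous_id.sub continuous_const)).continuousAt
    exact hc.eventually (gt_mem_nhds (hT q hq))
  filter_upwards [hev] with y hy
  exact ⟨r, hr, T, hy, hcard⟩

theorem SS_shift {z : ℝ × ℝ} (a : ℤ × ℤ) (hz : z ∈ SS ω₁ ω₂ l p) :
    z + lv ω₁ ω₂ a ∈ SS ω₁ ω₂ l p := by
  classical
  obtain ⟨r, hr, T, hT, hcard⟩ := hz
  let e : Fin N × (ℤ × ℤ) ↪ Fin N × (ℤ × ℤ) :=
    ⟨fun q => (q.1, q.2 + a), fun q q' h => by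
      simp only [Prod.mk.injEq, add_left_inj] at h
      exact Prod.ext h.1 h.2⟩
  refine ⟨r, hr, T.map e, ?_, by rw [Finset.card_map]; exact hcard⟩
  intro q hq
  obtain ⟨q', hq', rfl⟩ := Finset.mem_map.1 hq
  have h1 := hT q' hq'
  have h2 : z + lv ω₁ ω₂ a - PT ω₁ ω₂ p (e q') = z - PT ω₁ ω₂ p q' := by
    unfold PT
    show z + lv ω₁ ω₂ a - (p q'.1 + lv ω₁ ω₂ (q'.2 + a)) = _
    rw [lv_add]; abel
  rw [h2]
  exact h1

theorem Tc_shift {z : ℝ × ℝ} (a : ℤ × ℤ) (hz : z ∉ SS ω₁ ω₂ l p) :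
    z + lv ω₁ ω₂ a ∉ SS ω₁ ω₂ l p := by
  intro h
  have h1 := SS_shift (-a) h
  rw [lv_neg, add_neg_cancel_right] at h1
  exact hz h1

theorem mem_SS (hl : 0 < l) (j : Fin N) : p j ∈ SS ω₁ ω₂ l p := by
  have h2l : 0 < 2 * l := by positivity
  refine ⟨Real.sqrt (1 / (2 * l)), Real.sqrt_pos.2 (by positivity), {(j, 0)}, ?_, ?_⟩
  · intro q hq
    rw [Finset.mem_singleton.1 hq]
    have h0 : p j - PT ω₁ ω₂ p (j, 0) = 0 := by
      unfold PT lv
      simp
    rw [h0, Real.sq_sqrt (by positivity)]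
    have : CS.sq 0 = 0 := by simp [CS.sq]
    rw [this]; positivity
  · rw [Real.sq_sqrt (by positivity)]
    simp only [Finset.card_singleton, Nat.cast_one]
    apply le_of_eq
    field_simp

theorem volume_ball_prod (x : ℝ × ℝ) {r : ℝ} (hr : 0 ≤ r) :
    (volume : Measure (ℝ × ℝ)).real (Metric.ball x r) = (2 * r) ^ 2 := by
  rw [Measure.real, ← ball_prod_same, Measure.volume_eq_prod, Measure.prod_prod, Real.volume_ball,
    Real.volume_ball, ENNReal.toReal_mul, ENNReal.toReal_ofReal (by positivity)]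
  ring

include hδ in
/-- reverse maximal inequality -/
theorem reverse_max (hl : 0 < l) (hne : (SS ω₁ ω₂ l p)ᶜ.Nonempty) :
    (ar ω₁ ω₂)⁻¹ * N ≤ 36 * l * Cav hδ ((SS ω₁ ω₂ l p).indicator 1) := by
  classical
  set S := SS ω₁ ω₂ l p with hS
  have hcl : IsClosed Sᶜ := isOpen_SS.isClosed_compl
  set d : Fin N → ℝ := fun j => Metric.infDist (p j) Sᶜ with hd
  have hdpos : ∀ j, 0 < d j := fun j =>
    (hcl.notMem_iff_infDist_pos hne).1 (fun h0 => h0 (mem_SS hl j))
  -- distances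
  have f1 : ∀ y, y ∉ S → ∀ j a, d j ≤ ‖y - PT ω₁ ω₂ p (j, a)‖ := by
    intro y hy j a
    have h1 : y - lv ω₁ ω₂ a ∈ Sᶜ := by
      have := Tc_shift (-a) hy
      rwa [lv_neg, ← sub_eq_add_neg] at this
    have h2 := Metric.infDist_le_dist_of_mem (x := p j) h1
    rw [dist_eq_norm] at h2
    refine h2.trans (le_of_eq ?_)
    rw [← norm_neg]
    congr 1
    unfold PT
    simp only
    abel
  have f2 : ∀ z j a, Metric.infDist z Sᶜ ≤ d j + ‖z - PT ω₁ ω₂ p (j, a)‖ := by
    intro z j a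
    obtain ⟨y, hy, hyd⟩ := hcl.exists_infDist_eq_dist hne (p j)
    have h1 : y + lv ω₁ ω₂ a ∈ Sᶜ := Tc_shift a hy
    have h2 := Metric.infDist_le_dist_of_mem (x := z) h1
    rw [dist_eq_norm] at h2 hyd
    refine h2.trans ?_
    have h3 : z - (y + lv ω₁ ω₂ a) = (p j - y) + (z - PT ω₁ ω₂ p (j, a)) := by
      unfold PT; simp only; abel
    rw [h3]
    refine (norm_add_le _ _).trans ?_
    rw [← hyd]
  -- the weight
  set H : ℝ × ℝ → ℝ := fun z => ∑ j, ((d j) ^ 2)⁻¹ *
    (Metric.ball (p j) (d j / 2)).indicator 1 z with hH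
  have hHi : ∀ j, Integrable (fun z => ((d j) ^ 2)⁻¹ *
      (Metric.ball (p j) (d j / 2)).indicator (1 : ℝ × ℝ → ℝ) z) := by
    intro j
    refine Integrable.const_mul ?_ _
    rw [integrable_indicator_iff Metric.isOpen_ball.measurableSet]
    exact integrableOn_const Metric.isBounded_ball.measure_lt_top.ne
  have hHint : Integrable H := integrable_finsetSum _ fun j _ => hHi j
  have hHval : ∫ z, H z = N := by
    rw [hH, integral_finsetSum _ fun j _ => hHi j]
    have : ∀ j, ∫ z, ((d j) ^ 2)⁻¹ *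
        (Metric.ball (p j) (d j / 2)).indicator (1 : ℝ × ℝ → ℝ) z = 1 := by
      intro j
      rw [integral_const_mul, integral_indicator_one Metric.isOpen_ball.measurableSet,
        volume_ball_prod _ (by have := hdpos j; linarith)]
      have := (hdpos j).ne'
      field_simp
    simp_rw [this]
    simp
  have hsum := hasSum_unfold hδ hHint
  rw [hHval] at hsum
  refine hasSum_le_of_sum_le hsum fun B => ?_
  -- pointwise bound
  have hpt : ∀ z, ∑ a ∈ B, H (z + lv ω₁ ω₂ a) ≤ 36 * l * S.indicator 1 z := by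
    intro z
    -- rewrite as a sum over pairs
    have hind : ∀ j a, (Metric.ball (p j) (d j / 2)).indicator (1 : ℝ × ℝ → ℝ)
        (z + lv ω₁ ω₂ a) = if ‖z - PT ω₁ ω₂ p (j, -a)‖ < d j / 2 then 1 else 0 := by
      intro j a
      have h1 : z + lv ω₁ ω₂ a ∈ Metric.ball (p j) (d j / 2) ↔
          ‖z - PT ω₁ ω₂ p (j, -a)‖ < d j / 2 := by
        rw [Metric.mem_ball, dist_eq_norm]
        have : z + lv ω₁ ω₂ a - p j = z - PT ω₁ ω₂ p (j, -a) := by
          unfold PT; simp only [lv_neg]; abel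
        rw [this]
      by_cases h : ‖z - PT ω₁ ω₂ p (j, -a)‖ < d j / 2
      · rw [indicator_of_mem (h1.2 h), if_pos h]; rfl
      · rw [indicator_of_notMem (fun h0 => h (h1.1 h0)), if_neg h]
    have hexp : ∑ a ∈ B, H (z + lv ω₁ ω₂ a) =
        ∑ q ∈ B ×ˢ (Finset.univ : Finset (Fin N)), ((d q.2) ^ 2)⁻¹ *
          (if ‖z - PT ω₁ ω₂ p (q.2, -q.1)‖ < d q.2 / 2 then 1 else 0) := by
      rw [Finset.sum_product]
      refine Finset.sum_congr rfl fun a _ => ?_
      simp only [hH, hind]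
    rw [hexp]
    simp only [mul_ite, mul_one, mul_zero]
    rw [← Finset.sum_filter]
    set F := (B ×ˢ (Finset.univ : Finset (Fin N))).filter
      (fun q => ‖z - PT ω₁ ω₂ p (q.2, -q.1)‖ < d q.2 / 2) with hF
    by_cases hz : z ∈ S
    · rw [indicator_of_mem hz, Pi.one_apply, mul_one]
      obtain ⟨y, hy, hyd⟩ := hcl.exists_infDist_eq_dist hne z
      set dz := Metric.infDist z Sᶜ with hdz
      have hdzpos : 0 < dz := (hcl.notMem_iff_infDist_pos hne).1 (fun h0 => h0 hz)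
      rw [dist_eq_norm] at hyd
      have hq : ∀ q ∈ F, ‖z - PT ω₁ ω₂ p (q.2, -q.1)‖ < dz ∧ dz < 3 / 2 * d q.2 := by
        intro q hq
        have h1 := (Finset.mem_filter.1 hq).2
        have h2 := f1 y hy q.2 (-q.1)
        have h3 := f2 z q.2 (-q.1)
        have h4 : ‖y - PT ω₁ ω₂ p (q.2, -q.1)‖ ≤ dz + ‖z - PT ω₁ ω₂ p (q.2, -q.1)‖ := by
          have : y - PT ω₁ ω₂ p (q.2, -q.1) = -(z - y) + (z - PT ω₁ ω₂ p (q.2, -q.1)) := by abel
          rw [this]
          refine (norm_add_le _ _).trans ?_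
          rw [norm_neg, ← hyd]
        constructor <;> linarith
      -- cardinality
      let e : (ℤ × ℤ) × Fin N ↪ Fin N × (ℤ × ℤ) :=
        ⟨fun q => (q.2, -q.1), fun q q' h => by
          simp only [Prod.mk.injEq, neg_inj] at h
          exact Prod.ext h.2 h.1⟩
      have hcard : (F.card : ℝ) < 2 * l * (8 * dz ^ 2) := by
        by_contra hcon
        push Not at hcon
        apply hy
        have h8 : Real.sqrt 8 ^ 2 = 8 := Real.sq_sqrt (by norm_num)
        refine ⟨Real.sqrt 8 * dz, by positivity, F.map e, ?_, ?_⟩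
        · intro q hq'
          obtain ⟨q', hq'', rfl⟩ := Finset.mem_map.1 hq'
          have h1 := (hq q' hq'').1
          have h2 : ‖y - PT ω₁ ω₂ p (e q')‖ < 2 * dz := by
            have : y - PT ω₁ ω₂ p (e q') = -(z - y) + (z - PT ω₁ ω₂ p (q'.2, -q'.1)) := by
              show y - PT ω₁ ω₂ p (q'.2, -q'.1) = _
              abel
            rw [this]
            refine (norm_add_le _ _).trans_lt ?_
            rw [norm_neg, ← hyd]
            linarith
          have h3 := CS.sq_le_norm_sq (y - PT ω₁ ω₂ p (e q'))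
          have h4 : ‖y - PT ω₁ ω₂ p (e q')‖ ^ 2 < (2 * dz) ^ 2 :=
            pow_lt_pow_left₀ h2 (norm_nonneg _) (by norm_num)
          rw [mul_pow, h8]
          linarith
        · rw [mul_pow, h8, Finset.card_map]
          exact hcon
      have hterm : ∀ q ∈ F, ((d q.2) ^ 2)⁻¹ ≤ 9 / (4 * dz ^ 2) := by
        intro q hq'
        have h1 := (hq q hq').2
        have h2 := hdpos q.2
        rw [inv_eq_one_div, div_le_div_iff₀ (by positivity) (by positivity)]
        nlinarith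
      calc ∑ q ∈ F, ((d q.2) ^ 2)⁻¹ ≤ F.card • (9 / (4 * dz ^ 2)) :=
            Finset.sum_le_card_nsmul _ _ _ hterm
        _ = (F.card : ℝ) * (9 / (4 * dz ^ 2)) := nsmul_eq_mul _ _
        _ ≤ (2 * l * (8 * dz ^ 2)) * (9 / (4 * dz ^ 2)) :=
            mul_le_mul_of_nonneg_right hcard.le (by positivity)
        _ = 36 * l := by field_simp; ring
    · rw [indicator_of_notMem hz, mul_zero]
      have hempty : F = ∅ := by
        rw [hF, Finset.filter_eq_empty_iff]
        intro q _ h0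
        have h1 := f1 z hz q.2 (-q.1)
        have h2 := hdpos q.2
        linarith
      rw [hempty, Finset.sum_empty]
  -- integrate
  unfold Cav
  have hi1 : ∀ a, IntegrableOn (fun y => H (AA ω₁ ω₂ hδ y + lv ω₁ ω₂ a)) (CS.Qc 1) := fun a =>
    (integrable_AA hδ (hHint.comp_add_right (lv ω₁ ω₂ a))).integrableOn
  rw [← integral_finsetSum _ fun a _ => hi1 a, ← integral_const_mul]
  have hfin : IsFiniteMeasure ((volume : Measure (ℝ × ℝ)).restrict (CS.Qc 1)) :=
    ⟨by rw [Measure.restrict_apply_univ, CS.volume_Qc]; exact ENNReal.natCast_lt_top 1⟩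
  have hi2 : IntegrableOn (fun y => 36 * l * S.indicator (1 : ℝ × ℝ → ℝ) (AA ω₁ ω₂ hδ y))
      (CS.Qc 1) := by
    refine Integrable.const_mul ?_ _
    refine Integrable.mono' (integrable_const (1 : ℝ)) ?_ (Eventually.of_forall fun y => ?_)
    · exact ((measurable_one.indicator isOpen_SS.measurableSet).comp
        (emb_AA hδ).measurable).aestronglyMeasurable
    · by_cases hy : AA ω₁ ω₂ hδ y ∈ S
      · rw [indicator_of_mem hy]; simp
      · rw [indicator_of_notMem hy]; simp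
  exact integral_mono (integrable_finsetSum _ fun a _ => hi1 a) hi2 fun y => hpt _

theorem exp_small : Real.exp (-(3 / 2)) ≤ 1 / 4 := by
  have h1 : (13 / 8 : ℝ) ≤ Real.exp (1 / 2) := by
    have := Real.quadratic_le_exp_of_nonneg (show (0 : ℝ) ≤ 1 / 2 by norm_num)
    linarith
  have h2 : Real.exp (3 / 2) = Real.exp (1 / 2) ^ 3 := by
    rw [← Real.exp_nat_mul]; norm_num
  have h3 : (13 / 8 : ℝ) ^ 3 ≤ Real.exp (1 / 2) ^ 3 := pow_le_pow_left₀ (by norm_num) h1 3
  rw [Real.exp_neg, h2, inv_eq_one_div, div_le_div_iff₀ (by positivity) (by norm_num)]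
  have : (4 : ℝ) ≤ (13 / 8 : ℝ) ^ 3 := by norm_num
  linarith

theorem Ff_small {t : ℝ} (ht : t ≤ -(3 / 2)) : -CS.Ff t ≤ 3 / 16 := by
  have h1 : Real.exp t ≤ 1 / 4 := (Real.exp_le_exp.2 ht).trans exp_small
  have h2 := Real.exp_pos t
  unfold CS.Ff
  nlinarith

include hδ in
/-- the improved necessary condition -/
theorem Sol.improved (hl : 0 < l) (h : Sol ω₁ ω₂ l p u) :
    (16 * Real.pi + 1 / 144) * N ≤ l * ar ω₁ ω₂ := by
  set S := SS ω₁ ω₂ l p with hS
  have har := ar_pos hδ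
  have hfin : IsFiniteMeasure ((volume : Measure (ℝ × ℝ)).restrict (CS.Qc 1)) :=
    ⟨by rw [Measure.restrict_apply_univ, CS.volume_Qc]; exact ENNReal.natCast_lt_top 1⟩
  -- integrability
  have hi1 : IntegrableOn (fun y => CS.Ff (u (AA ω₁ ω₂ hδ y))) (CS.Qc 1) := by
    have hK : IsCompact (AA ω₁ ω₂ hδ '' (Icc (0 : ℝ) 1 ×ˢ Icc (0 : ℝ) 1)) :=
      (isCompact_Icc.prod isCompact_Icc).image (cont_AA hδ)
    have h1 : IntegrableOn (fun z => CS.Ff (u z)) (AA ω₁ ω₂ hδ '' CS.Qc 1) := by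
      refine (h.locF.integrableOn_isCompact hK).mono_set (image_mono ?_)
      unfold CS.Qc
      simp only [Nat.cast_one]
      exact Set.prod_mono Ico_subset_Icc_self Ico_subset_Icc_self
    rw [← integrable_indicator_iff (meas_cell hδ)] at h1
    have h2 := integrable_AA hδ h1
    rw [← integrable_indicator_iff (CS.measurableSet_Qc 1)]
    refine h2.congr (Eventually.of_forall fun y => ?_)
    by_cases hy : y ∈ CS.Qc 1
    · simp only [indicator_of_mem hy]
      rw [indicator_of_mem (mem_image_of_mem _ hy)]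
    · simp only [indicator_of_notMem hy]
      rw [indicator_of_notMem (fun h0 => hy (((AA ω₁ ω₂ hδ).injective.mem_set_image).1 h0))]
  have hi2 : IntegrableOn (fun y => S.indicator (1 : ℝ × ℝ → ℝ) (AA ω₁ ω₂ hδ y)) (CS.Qc 1) := by
    refine Integrable.mono' (integrable_const (1 : ℝ)) ?_ (Eventually.of_forall fun y => ?_)
    · exact ((measurable_one.indicator isOpen_SS.measurableSet).comp
        (emb_AA hδ).measurable).aestronglyMeasurable
    · by_cases hy : AA ω₁ ω₂ hδ y ∈ S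
      · rw [indicator_of_mem hy]; simp
      · rw [indicator_of_notMem hy]; simp
  -- pointwise inequality
  have hpt : ∀ᵐ z, -CS.Ff (u z) ≤ 1 / 4 - 1 / 16 * S.indicator (1 : ℝ × ℝ → ℝ) z := by
    filter_upwards [h.ae_small hδ hl] with z hz
    by_cases hzS : z ∈ S
    · rw [indicator_of_mem hzS, Pi.one_apply]
      obtain ⟨r, hr, T, hT, hcard⟩ := hzS
      have := Ff_small (hz r hr T hT hcard)
      linarith
    · rw [indicator_of_notMem hzS]
      have := CS.Ff_ge' (u z)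
      linarith
  have hint : - Cav hδ (fun z => CS.Ff (u z)) ≤
      1 / 4 - 1 / 16 * Cav hδ (S.indicator 1) := by
    have h1 : ∫ y in CS.Qc 1, -CS.Ff (u (AA ω₁ ω₂ hδ y)) ≤
        ∫ y in CS.Qc 1, (1 / 4 - 1 / 16 * S.indicator (1 : ℝ × ℝ → ℝ) (AA ω₁ ω₂ hδ y)) := by
      apply integral_mono_ae hi1.neg ((integrable_const _).sub (hi2.const_mul _))
      exact ae_restrict_of_ae (ae_AA hδ hpt)
    rw [integral_neg, integral_sub (integrable_const _) (hi2.const_mul _), integral_const_mul,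
      integral_const] at h1
    have hv : ((volume : Measure (ℝ × ℝ)).restrict (CS.Qc 1)).real univ = 1 := by
      rw [measureReal_restrict_apply_univ, CS.volume_real_Qc]; simp
    rw [hv, one_smul] at h1
    exact h1
  have hflux := h.flux hδ
  have hN : (0 : ℝ) ≤ N := by positivity
  have hpi := Real.pi_gt_three
  have hlar : 0 < l * ar ω₁ ω₂ := mul_pos hl har
  have key : 4 * Real.pi * N ≤ l * ar ω₁ ω₂ * (1 / 4 - 1 / 16 * Cav hδ (S.indicator 1)) := by
    have h1 := mul_le_mul_of_nonneg_left hint hlar.le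
    have h2 : 4 * Real.pi * N = l * ar ω₁ ω₂ * (- Cav hδ (fun z => CS.Ff (u z))) := by
      linear_combination hflux
    rw [h2]; exact h1
  by_cases hne : (S)ᶜ.Nonempty
  · have h1 := reverse_max hδ hl hne
    rw [inv_mul_le_iff₀ har] at h1
    nlinarith
  · have huniv : S = univ := by
      rw [not_nonempty_iff_eq_empty, compl_empty_iff] at hne
      exact hne
    have h1 : Cav hδ (S.indicator 1) = 1 := by
      rw [huniv, indicator_univ]
      unfold Cav
      simp only [Pi.one_apply, integral_const, smul_eq_mul, mul_one]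
      rw [measureReal_restrict_apply_univ, CS.volume_real_Qc]; simp
    rw [h1] at key
    nlinarith

end

end Pool.Agent.H172R3.CSG
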