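import Pool.Agent.H172R3.CSG.L

/-! # Solutions on a general torus: flux and a pointwise bound -/

set_option autoImplicit false
set_option linter.unusedSectionVars false

namespace Pool.Agent.H172R3.CSG

open MeasureTheory Filter Topology Set
open Pool.Agent.Helper676

/-- distributional solutions on the torus with periods `ω₁`, `ω₂` -/
structure Sol (ω₁ ω₂ : ℝ × ℝ) (l : ℝ) {N : ℕ} (p : Fin N → ℝ × ℝ) (u : ℝ × ℝ → ℝ) : Prop where
  loc : LocallyIntegrable u
  locF : LocallyIntegrable (fun z => CS.Ff (u z))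
  per : ∀ a z, u (z + lv ω₁ ω₂ a) = u z
  eq : ∀ φ : ℝ × ℝ → ℝ, ContDiff ℝ (⊤ : ℕ∞) φ → HasCompactSupport φ →
    ∫ z, u z * CS.lap φ z = l * (∫ z, CS.Ff (u z) * φ z) +
      4 * Real.pi * ∑ j, ∑' a, φ (p j + lv ω₁ ω₂ a)

section

variable {ω₁ ω₂ : ℝ × ℝ} (hδ : dt ω₁ ω₂ ≠ 0) {l : ℝ} {N : ℕ} {p : Fin N → ℝ × ℝ}
  {u : ℝ × ℝ → ℝ}

include hδ in
theorem exists_max {W : ℝ × ℝ → ℝ} (hW : Continuous W)
    (hper : ∀ a z, W (z + lv ω₁ ω₂ a) = W z) : ∃ x₀, ∀ x, W x ≤ W x₀ := by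
  obtain ⟨y₀, hy⟩ := CS.exists_max (n := 1) le_rfl (W := fun y => W (AA ω₁ ω₂ hδ y))
    (hW.comp (cont_AA hδ)) (fun a z => by rw [AA_lt, hper])
  refine ⟨AA ω₁ ω₂ hδ y₀, fun x => ?_⟩
  have := hy ((AA ω₁ ω₂ hδ).symm x)
  simpa using this

include hδ in
/-- Maximum principle for periodic distributional subsolutions of `Δu ≥ λu`. -/
theorem maxprinciple (hl : 0 < l) (hu : LocallyIntegrable u)
    (hper : ∀ a z, u (z + lv ω₁ ω₂ a) = u z)
    (h : ∀ φ : ℝ × ℝ → ℝ, ContDiff ℝ (⊤ : ℕ∞) φ → HasCompactSupport φ → (∀ z, 0 ≤ φ z) →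
      l * ∫ z, u z * φ z ≤ ∫ z, u z * CS.lap φ z) : ∀ᵐ z, u z ≤ 0 := by
  apply CS.ae_le_of_mollify hu
  intro ρ' _
  set ρ := ρ'.normed (volume : Measure (ℝ × ℝ)) with hρ
  have hρs : ContDiff ℝ (⊤ : ℕ∞) ρ := ρ'.contDiff_normed
  have hρc : HasCompactSupport ρ := ρ'.hasCompactSupport_normed
  have hρn : ∀ z, 0 ≤ ρ z := ρ'.nonneg_normed
  have hW := CS.cv_contDiff hρs hρc hu
  obtain ⟨x₀, hx₀⟩ := exists_max hδ hW.continuous (fun a z => CS.cv_periodic (hper a) z)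
  have h1 : CS.lap (CS.cv ρ u) x₀ ≤ 0 := by
    have a := CS.snd_test (hW.of_le CS.two_le_infty) hx₀ (1, 0)
    have b := CS.snd_test (hW.of_le CS.two_le_infty) hx₀ (0, 1)
    rw [CS.lap, CS.dx_eq, CS.dy_eq]; linarith
  rw [CS.cv_lap hρs hρc hu, CS.cv_lap_eq] at h1
  have h2 := h (fun y => ρ (x₀ - y)) (hρs.comp (contDiff_const.sub contDiff_id))
    (CS.hasCompactSupport_reflect hρc x₀) (fun z => hρn _)
  have h3 : ∫ z, u z * ρ (x₀ - z) = CS.cv ρ u x₀ := by
    rw [CS.cv]; congr 1; ext y; ring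
  rw [h3] at h2
  intro x
  refine (hx₀ x).trans ?_
  nlinarith

include hδ in
theorem Sol.nonpos (hl : 0 < l) (h : Sol ω₁ ω₂ l p u) : ∀ᵐ z, u z ≤ 0 := by
  apply maxprinciple hδ hl h.loc h.per
  intro φ hφ hc hφ0
  rw [h.eq φ hφ hc]
  have i1 : Integrable (fun z => u z * φ z) := by
    have := CS.integrable_mul_of_compact hφ.continuous hc h.loc
    simpa [mul_comm] using this
  have i2 : Integrable (fun z => CS.Ff (u z) * φ z) := by
    have := CS.integrable_mul_of_compact hφ.continuous hc h.locF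
    simpa [mul_comm] using this
  have h1 : ∫ z, u z * φ z ≤ ∫ z, CS.Ff (u z) * φ z :=
    integral_mono i1 i2 fun z => mul_le_mul_of_nonneg_right (CS.Ff_ge _) (hφ0 z)
  have h2 : 0 ≤ ∑ j, ∑' a, φ (p j + lv ω₁ ω₂ a) :=
    Finset.sum_nonneg fun j _ => tsum_nonneg fun a => hφ0 _
  have h3 := mul_le_mul_of_nonneg_left h1 hl.le
  have h4 : 0 ≤ 4 * Real.pi * ∑ j, ∑' a, φ (p j + lv ω₁ ω₂ a) := by positivity
  linarith

theorem integral_lap_zero {φ : ℝ × ℝ → ℝ} (hφ : ContDiff ℝ 2 φ) (hc : HasCompactSupport φ) :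
    ∫ z, CS.lap φ z = 0 := by
  have h := CS.green (v := fun _ => 1) contDiff_const hφ hc
  have h0 : CS.lap (fun _ : ℝ × ℝ => (1 : ℝ)) = fun _ => 0 := by
    ext z
    have : ∀ e, CS.dd e (fun _ : ℝ × ℝ => (1 : ℝ)) = fun _ => 0 := by
      intro e; ext w; simp [CS.dd]
    rw [CS.lap, CS.dx_eq, CS.dy_eq, this, this]
    simp [CS.dd]
  rw [h0] at h
  simpa using h

/-- conservation of flux -/
theorem Sol.flux (h : Sol ω₁ ω₂ l p u) :
    4 * Real.pi * N + l * (ar ω₁ ω₂ * Cav hδ (fun z => CS.Ff (u z))) = 0 := by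
  let ρ' : ContDiffBump (0 : ℝ × ℝ) := ⟨1 / 8, 1 / 4, by norm_num, by norm_num⟩
  set ρ := ρ'.normed (volume : Measure (ℝ × ℝ)) with hρ
  have hρs : ContDiff ℝ (⊤ : ℕ∞) ρ := ρ'.contDiff_normed
  have hρc : HasCompactSupport ρ := ρ'.hasCompactSupport_normed
  have hχl := (integrable_χc hδ).locallyIntegrable
  set φ := CS.cv ρ (χc hδ) with hφdef
  have hφ : ContDiff ℝ (⊤ : ℕ∞) φ := CS.cv_contDiff hρs hρc hχl
  have hχc : HasCompactSupport (χc hδ) := by
    obtain ⟨R, hR⟩ := hcs_χc hδ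
    refine HasCompactSupport.intro (isCompact_closedBall (0 : ℝ × ℝ) R) fun z hz => hR z ?_
    rw [Metric.mem_closedBall, dist_zero_right] at hz
    exact not_le.1 hz
  have hc : HasCompactSupport φ := by
    rw [hφdef, CS.cv_eq_convolution]
    exact HasCompactSupport.convolution _ hχc hρc
  have s1 : ∀ z, ∑' a, φ (z + lv ω₁ ω₂ a) = 1 := by
    intro z
    have := (hasSum_cv hδ (ρ'.integrable_normed (μ := volume)) z).tsum_eq
    rw [ρ'.integral_normed] at this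
    exact this
  have hlapi : Integrable (CS.lap ρ) :=
    (CS.continuous_lap (hρs.of_le CS.two_le_infty)).integrable_of_hasCompactSupport
      (CS.hasCompactSupport_lap hρc)
  have s2 : ∀ z, ∑' a, CS.lap φ (z + lv ω₁ ω₂ a) = 0 := by
    intro z
    have := (hasSum_cv hδ hlapi z).tsum_eq
    rw [integral_lap_zero (hρs.of_le CS.two_le_infty) hρc] at this
    rw [hφdef, CS.cv_lap hρs hρc hχl]
    exact this
  have i1 : Integrable (fun z => u z * CS.lap φ z) := by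
    have := CS.integrable_mul_of_compact (CS.continuous_lap (hφ.of_le CS.two_le_infty))
      (CS.hasCompactSupport_lap hc) h.loc
    simpa [mul_comm] using this
  have i2 : Integrable (fun z => CS.Ff (u z) * φ z) := by
    have := CS.integrable_mul_of_compact hφ.continuous hc h.locF
    simpa [mul_comm] using this
  have e := h.eq φ hφ hc
  rw [periodic_mul hδ h.per i1 s2, periodic_mul hδ (fun a z => by rw [h.per]) i2 s1] at e
  simp_rw [s1] at e
  simp only [zero_mul, mul_zero, one_mul, Finset.sum_const, Finset.card_univ, Fintype.card_fin,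
    nsmul_eq_mul, mul_one] at e
  linarith

theorem lv_eq (a : ℤ × ℤ) : AA ω₁ ω₂ hδ (CS.lt 1 a) = lv ω₁ ω₂ a := by
  have := AA_lt hδ 0 a
  rw [zero_add, map_zero, zero_add] at this
  exact this

include hδ in
theorem finite_lv (R : ℝ) : {a : ℤ × ℤ | ‖lv ω₁ ω₂ a‖ ≤ R}.Finite := by
  set S : (ℝ × ℝ) →L[ℝ] (ℝ × ℝ) :=
    ((AA ω₁ ω₂ hδ).symm.toContinuousLinearEquiv : (ℝ × ℝ) →L[ℝ] (ℝ × ℝ)) with hS
  refine (CS.finite_lt (n := 1) le_rfl (‖S‖ * R)).subset ?_
  intro a ha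
  have ha' : ‖lv ω₁ ω₂ a‖ ≤ R := ha
  show ‖CS.lt 1 a‖ ≤ ‖S‖ * R
  have h1 : CS.lt 1 a = S (lv ω₁ ω₂ a) := by
    rw [← lv_eq hδ]
    show _ = (AA ω₁ ω₂ hδ).symm (AA ω₁ ω₂ hδ (CS.lt 1 a))
    rw [LinearEquiv.symm_apply_apply]
  rw [h1]
  exact (S.le_opNorm _).trans (mul_le_mul_of_nonneg_left ha' (norm_nonneg _))

include hδ in
theorem sum_le_sum_tsum {f : ℝ × ℝ → ℝ} (hf : ∀ z, 0 ≤ f z) {R : ℝ}
    (hR : ∀ z, R < ‖z‖ → f z = 0) (x : ℝ × ℝ) (T : Finset (Fin N × (ℤ × ℤ))) :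
    ∑ q ∈ T, f (x - (p q.1 + lv ω₁ ω₂ q.2)) ≤ ∑ j, ∑' a, f (x - (p j + lv ω₁ ω₂ a)) := by
  classical
  have hs : ∀ j, Summable fun a => f (x - (p j + lv ω₁ ω₂ a)) := by
    intro j
    apply summable_of_hasFiniteSupport
    refine (finite_lv hδ (R + ‖x - p j‖)).subset ?_
    intro a ha
    by_contra hcon
    apply ha
    apply hR
    have h3 : R + ‖x - p j‖ < ‖lv ω₁ ω₂ a‖ := not_le.mp hcon
    have h4 : ‖lv ω₁ ω₂ a‖ ≤ ‖x - p j‖ + ‖x - (p j + lv ω₁ ω₂ a)‖ := by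
      have : lv ω₁ ω₂ a = (x - p j) - (x - (p j + lv ω₁ ω₂ a)) := by abel
      calc ‖lv ω₁ ω₂ a‖ = ‖(x - p j) - (x - (p j + lv ω₁ ω₂ a))‖ := by rw [← this]
        _ ≤ _ := norm_sub_le _ _
    linarith
  calc ∑ q ∈ T, f (x - (p q.1 + lv ω₁ ω₂ q.2))
      ≤ ∑ q ∈ (Finset.univ : Finset (Fin N)) ×ˢ (T.image Prod.snd),
          f (x - (p q.1 + lv ω₁ ω₂ q.2)) := by
        refine Finset.sum_le_sum_of_subset_of_nonneg ?_ (fun _ _ _ => hf _)
        intro q hq
        exact Finset.mem_product.2 ⟨Finset.mem_univ _, Finset.mem_image_of_mem _ hq⟩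
    _ = ∑ j, ∑ a ∈ T.image Prod.snd, f (x - (p j + lv ω₁ ω₂ a)) := by
        rw [Finset.sum_product]
    _ ≤ _ := Finset.sum_le_sum fun j _ => (hs j).sum_le_tsum _ (fun _ _ => hf _)

theorem Sol.lap_cv (h : Sol ω₁ ω₂ l p u) {ρ : ℝ × ℝ → ℝ} (hρ : ContDiff ℝ (⊤ : ℕ∞) ρ)
    (hc : HasCompactSupport ρ) (x : ℝ × ℝ) :
    CS.lap (CS.cv ρ u) x = l * CS.cv ρ (fun z => CS.Ff (u z)) x +
      4 * Real.pi * ∑ j, ∑' a, ρ (x - (p j + lv ω₁ ω₂ a)) := by
  rw [CS.cv_lap hρ hc h.loc, CS.cv_lap_eq, h.eq (fun y => ρ (x - y))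
    (hρ.comp (contDiff_const.sub contDiff_id)) (CS.hasCompactSupport_reflect hc x)]
  congr 2
  rw [CS.cv]; congr 1; ext y; ring

include hδ in
theorem Sol.lap_cv_ge (h : Sol ω₁ ω₂ l p u) (hl : 0 < l) (ρ : ContDiffBump (0 : ℝ × ℝ))
    (x : ℝ × ℝ) (T : Finset (Fin N × (ℤ × ℤ))) :
    -(l / 4) + 4 * Real.pi * ∑ q ∈ T, ρ.normed volume (x - (p q.1 + lv ω₁ ω₂ q.2)) ≤
      CS.lap (CS.cv (ρ.normed volume) u) x := by
  rw [h.lap_cv ρ.contDiff_normed ρ.hasCompactSupport_normed]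
  have h1 : -(1 / 4) ≤ CS.cv (ρ.normed volume) (fun z => CS.Ff (u z)) x :=
    CS.le_cv_of h.locF (Eventually.of_forall fun y => CS.Ff_ge' _)
  have h2 := sum_le_sum_tsum (p := p) hδ (f := ρ.normed volume) (fun z => ρ.nonneg_normed z)
    (R := ρ.rOut) (fun z hz => by
      by_contra h0
      have h1 : z ∈ Function.support (ρ.normed volume) := h0
      rw [ρ.support_normed_eq, Metric.mem_ball, dist_zero_right] at h1
      linarith) x T
  have h3 := mul_le_mul_of_nonneg_left h2 (by positivity : 0 ≤ 4 * Real.pi)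
  nlinarith

theorem lap_sq (z : ℝ × ℝ) : CS.lap CS.sq z = 4 := by
  have h := CS.lap_comp_sq (z := z) (U := fun x => x) (U' := fun _ => 1) (U'' := fun _ => 0)
    (Eventually.of_forall fun x => hasDerivAt_id x) (hasDerivAt_const _ _)
  have e : CS.sq = fun y : ℝ × ℝ => y.1 ^ 2 + y.2 ^ 2 := rfl
  rw [e, h]
  ring

theorem int_bf {s : ℝ} (hs : 0 < s) : ∫ z, |CS.bf 1 s z| ≤ Real.pi * s := by
  have h := CS.bf_lap (k := 1) le_rfl hs (φ := CS.sq) CS.contDiff_sq
  simp only [lap_sq] at h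
  have e0 : CS.sq 0 = 0 := by simp [CS.sq]
  rw [e0, integral_mul_const] at h
  have hab : ∀ z, |CS.bf 1 s z| = - CS.bf 1 s z := fun z => abs_of_nonpos (CS.bf_nonpos 1 hs z)
  simp_rw [hab]
  rw [integral_neg]
  have hm : ∫ z, CS.muf 1 s z * CS.sq z ≤ ∫ z, CS.muf 1 s z * s := by
    refine integral_mono_of_nonneg (Eventually.of_forall fun z =>
      mul_nonneg (CS.muf_nonneg 1 hs z) (CS.sq_nonneg' z)) ((CS.integrable_muf 1 hs).mul_const s)
      (Eventually.of_forall fun z => ?_)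
    by_cases hz : CS.sq z ≤ s
    · exact mul_le_mul_of_nonneg_left hz (CS.muf_nonneg 1 hs z)
    · simp only
      rw [CS.muf_zero_of_le hs (not_le.1 hz).le]
      simp
  rw [integral_mul_const, CS.integral_muf le_rfl hs] at hm
  push_cast at hm h
  linarith

theorem bf_le {s r : ℝ} (hr : 0 < r) (hrs : r ^ 2 ≤ s) {w : ℝ × ℝ} (hw : w ≠ 0)
    (h : CS.sq w ≤ r ^ 2) : CS.bf 1 s w ≤ Real.log (r ^ 2 / s) + 3 / 4 := by
  have hs : 0 < s := by have := pow_pos hr 2; linarith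
  have hwp := CS.sq_pos' hw
  rw [CS.bf_eq hs (h.trans hrs) hw, Real.log_pow]
  have hτ0 : 0 < CS.sq w / s := div_pos hwp hs
  have hτ : CS.sq w / s ≤ r ^ 2 / s := div_le_div_of_nonneg_right h hs.le
  have hlog := Real.log_le_log hτ0 hτ
  have h1 : (CS.sq w / s) ^ (1 + 1) ≤ 1 := by
    apply pow_le_one₀ hτ0.le
    rw [div_le_one hs]; linarith
  have h2 : 0 ≤ (CS.sq w / s) ^ (1 + 1) := by positivity
  push_cast
  set τ2 := (CS.sq w / s) ^ (1 + 1) with hτ2
  nlinarith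

include hδ in
/-- the mollified pointwise bound -/
theorem Sol.cv_bound (hl : 0 < l) (h : Sol ω₁ ω₂ l p u) (ρ : ContDiffBump (0 : ℝ × ℝ))
    (z : ℝ × ℝ) (T : Finset (Fin N × (ℤ × ℤ))) {r s : ℝ} (hr : 0 < r) (hrs : r ^ 2 ≤ s)
    (hT : ∀ q ∈ T, ∀ v : ℝ × ℝ, ‖v‖ < ρ.rOut →
      CS.sq (z - (p q.1 + lv ω₁ ω₂ q.2) - v) ≤ r ^ 2) :
    CS.cv (ρ.normed volume) u z ≤ l * s / 16 + T.card * (Real.log (r ^ 2 / s) + 3 / 4) := by
  have hs : 0 < s := by have := pow_pos hr 2; linarith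
  set W := CS.cv (ρ.normed volume) u with hW
  have hWs : ContDiff ℝ (⊤ : ℕ∞) W :=
    CS.cv_contDiff ρ.contDiff_normed ρ.hasCompactSupport_normed h.loc
  have hWn : ∀ x, W x ≤ 0 := CS.cv_nonpos_of (fun x => ρ.nonneg_normed x) (h.nonpos hδ hl)
  have hb := CS.bf_lap (k := 1) le_rfl (s := s) hs (φ := fun w => W (z - w))
    ((hWs.of_le CS.two_le_infty).comp (contDiff_const.sub contDiff_id))
  rw [CS.lap_reflect] at hb
  have hlapc : Continuous (fun w => CS.lap W (z - w)) :=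
    (CS.continuous_lap (hWs.of_le CS.two_le_infty)).comp (continuous_const.sub continuous_id)
  have hib : ∀ g : ℝ × ℝ → ℝ, Continuous g → Integrable (fun w => CS.bf 1 s w * g w) := by
    intro g hg
    obtain ⟨C, hC⟩ := (isCompact_closedBall (0 : ℝ × ℝ) (Real.sqrt s)).exists_bound_of_continuousOn
      hg.continuousOn
    have hsub : ∀ w, ‖CS.bf 1 s w * g w‖ ≤ C * |CS.bf 1 s w| := by
      intro w
      by_cases hw : w ∈ Metric.closedBall (0 : ℝ × ℝ) (Real.sqrt s)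
      · rw [norm_mul, mul_comm]
        exact mul_le_mul_of_nonneg_right (hC w hw) (abs_nonneg _)
      · have : CS.bf 1 s w = 0 := by
          by_contra h0
          exact hw (CS.support_bf hs h0)
        simp [this]
    refine ((CS.integrable_bf (k := 1) le_rfl (s := s) hs).abs.const_mul C).mono'
      ?_ (Eventually.of_forall hsub)
    exact (CS.measurable_bf 1 s).aestronglyMeasurable.mul hg.aestronglyMeasurable
  have hmu : ∫ w, CS.muf 1 s w * W (z - w) ≤ 0 :=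
    integral_nonpos fun w => mul_nonpos_of_nonneg_of_nonpos (CS.muf_nonneg 1 hs w) (hWn _)
  -- the test functions
  set g : Fin N × (ℤ × ℤ) → ℝ × ℝ → ℝ := fun q w =>
    ρ.normed volume (z - w - (p q.1 + lv ω₁ ω₂ q.2)) with hg
  have hgc : ∀ q, Continuous (g q) := fun q =>
    ρ.continuous_normed.comp ((continuous_const.sub continuous_id).sub continuous_const)
  have hgi : ∀ q, Integrable (g q) := by
    intro q
    have := (ρ.integrable_normed (μ := (volume : Measure (ℝ × ℝ)))).comp_sub_left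
      (z - (p q.1 + lv ω₁ ω₂ q.2))
    refine this.congr (Eventually.of_forall fun w => ?_)
    simp only [hg]
    congr 1
    abel
  have hg1 : ∀ q, ∫ w, g q w = 1 := by
    intro q
    have := integral_sub_left_eq_self (ρ.normed (volume : Measure (ℝ × ℝ))) volume
      (z - (p q.1 + lv ω₁ ω₂ q.2))
    rw [ρ.integral_normed] at this
    rw [← this]
    congr 1
    ext w
    simp only [hg]
    congr 1
    abel
  have h1 : ∫ w, CS.bf 1 s w * CS.lap W (z - w) ≤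
      ∫ w, (l / 4 * |CS.bf 1 s w| + 4 * Real.pi * ∑ q ∈ T, CS.bf 1 s w * g q w) := by
    apply integral_mono (hib _ hlapc)
    · exact ((CS.integrable_bf (k := 1) le_rfl (s := s) hs).abs.const_mul _).add
        ((integrable_finsetSum T fun q _ => hib _ (hgc q)).const_mul _)
    intro w
    simp only
    have hb0 := CS.bf_nonpos 1 (s := s) hs w
    have hlap := h.lap_cv_ge hδ hl ρ (z - w) T
    rw [abs_of_nonpos hb0, ← Finset.mul_sum]
    have := mul_le_mul_of_nonpos_left hlap hb0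
    refine this.trans (le_of_eq ?_)
    simp only [hg]
    ring
  rw [integral_add ((CS.integrable_bf (k := 1) le_rfl (s := s) hs).abs.const_mul _)
      ((integrable_finsetSum T fun q _ => hib _ (hgc q)).const_mul _),
    integral_const_mul, integral_const_mul, integral_finsetSum T fun q _ => hib _ (hgc q)] at h1
  have h2 : ∀ q ∈ T, ∫ w, CS.bf 1 s w * g q w ≤ Real.log (r ^ 2 / s) + 3 / 4 := by
    intro q hq
    have h3 : ∫ w, CS.bf 1 s w * g q w ≤ ∫ w, (Real.log (r ^ 2 / s) + 3 / 4) * g q w := by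
      apply integral_mono_ae (hib _ (hgc q)) ((hgi q).const_mul _)
      have hz : ∀ᵐ w : ℝ × ℝ, w ≠ 0 := by
        rw [ae_iff]; simp
      filter_upwards [hz] with w hw0
      by_cases hgw : g q w = 0
      · simp only [hgw, mul_zero, le_refl]
      · have hsup : z - w - (p q.1 + lv ω₁ ω₂ q.2) ∈ Function.support (ρ.normed volume) := hgw
        rw [ρ.support_normed_eq, Metric.mem_ball, dist_zero_right] at hsup
        have h4 := hT q hq _ hsup
        have e1 : z - (p q.1 + lv ω₁ ω₂ q.2) - (z - w - (p q.1 + lv ω₁ ω₂ q.2)) = w := by abel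
        rw [e1] at h4
        exact mul_le_mul_of_nonneg_right (bf_le hr hrs hw0 h4) (ρ.nonneg_normed _)
    rw [integral_const_mul, hg1, mul_one] at h3
    exact h3
  have h3 := Finset.sum_le_sum h2
  rw [Finset.sum_const, nsmul_eq_mul] at h3
  have h4 := int_bf hs
  have h5 : l / 4 * ∫ w, |CS.bf 1 s w| ≤ l / 4 * (Real.pi * s) :=
    mul_le_mul_of_nonneg_left h4 (by positivity)
  have h6 := mul_le_mul_of_nonneg_left h3 (by positivity : 0 ≤ 4 * Real.pi)
  simp only [sub_zero] at hb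
  push_cast at hb
  have h7 : 4 * Real.pi * W z ≤ 4 * Real.pi * (l * s / 16 +
      T.card * (Real.log (r ^ 2 / s) + 3 / 4)) := by
    have : 4 * Real.pi * (l * s / 16) = l / 4 * (Real.pi * s) := by ring
    linarith
  exact le_of_mul_le_mul_left h7 (by positivity)

theorem ae_tendsto_cv (hu : LocallyIntegrable u) : ∃ φ : ℕ → ContDiffBump (0 : ℝ × ℝ),
    Tendsto (fun j => (φ j).rOut) atTop (𝓝 0) ∧
    ∀ᵐ x, Tendsto (fun j => CS.cv ((φ j).normed volume) u x) atTop (𝓝 (u x)) := by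
  let φ : ℕ → ContDiffBump (0 : ℝ × ℝ) := fun j =>
    ⟨1 / (8 * ((j : ℝ) + 1)), 1 / (4 * ((j : ℝ) + 1)), by positivity, by
      apply one_div_lt_one_div_of_lt (by positivity); linarith⟩
  have hφ : Tendsto (fun j => (φ j).rOut) atTop (𝓝 0) := by
    have h1 : Tendsto (fun j : ℕ => 1 / ((j : ℝ) + 1)) atTop (𝓝 0) :=
      tendsto_one_div_add_atTop_nhds_zero_nat
    have h2 := h1.const_mul (1 / 4)
    rw [mul_zero] at h2
    refine h2.congr fun j => ?_
    change _ = 1 / (4 * ((j : ℝ) + 1))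
    field_simp
  have hφ' : ∀ᶠ j in atTop, (φ j).rOut ≤ 2 * (φ j).rIn := by
    refine Eventually.of_forall fun j => ?_
    change 1 / (4 * ((j : ℝ) + 1)) ≤ 2 * (1 / (8 * ((j : ℝ) + 1)))
    apply le_of_eq
    field_simp
    norm_num
  refine ⟨φ, hφ, ?_⟩
  filter_upwards [ContDiffBump.ae_convolution_tendsto_right_of_locallyIntegrable
    (μ := (volume : Measure (ℝ × ℝ))) hφ hφ' hu] with x hx
  simp_rw [CS.cv_eq_convolution']
  exact hx

include hδ in
/-- many vortices near a point make `u` small there -/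
theorem Sol.ae_small (hl : 0 < l) (h : Sol ω₁ ω₂ l p u) :
    ∀ᵐ z, ∀ r : ℝ, 0 < r → ∀ T : Finset (Fin N × (ℤ × ℤ)),
      (∀ q ∈ T, CS.sq (z - (p q.1 + lv ω₁ ω₂ q.2)) < r ^ 2) → 2 * l * r ^ 2 ≤ T.card →
      u z ≤ -(3 / 2) := by
  obtain ⟨φ, hφ, hae⟩ := ae_tendsto_cv h.loc
  filter_upwards [hae] with z hz r hr T hT hcard
  have hr2 : 0 < r ^ 2 := pow_pos hr 2
  have hev : ∀ᶠ j in atTop, ∀ q ∈ T, ∀ v : ℝ × ℝ, ‖v‖ < (φ j).rOut →
      CS.sq (z - (p q.1 + lv ω₁ ω₂ q.2) - v) ≤ r ^ 2 := by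
    rw [Filter.eventually_all_finset]
    intro q hq
    have hc : ContinuousAt (fun v : ℝ × ℝ => CS.sq (z - (p q.1 + lv ω₁ ω₂ q.2) - v)) 0 :=
      (CS.continuous_sq.comp (continuous_const.sub continuous_id)).continuousAt
    have h1 : (fun v : ℝ × ℝ => CS.sq (z - (p q.1 + lv ω₁ ω₂ q.2) - v)) 0 < r ^ 2 := by
      simpa using hT q hq
    obtain ⟨ε, hε, hball⟩ := Metric.eventually_nhds_iff_ball.1 (hc.eventually (gt_mem_nhds h1))
    filter_upwards [hφ.eventually (gt_mem_nhds hε)] with j hj v hv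
    exact (hball v (by rw [Metric.mem_ball, dist_zero_right]; exact hv.trans hj)).le
  have hbound : ∀ᶠ j in atTop, CS.cv ((φ j).normed volume) u z ≤ -(3 / 2) := by
    filter_upwards [hev] with j hj
    have h1 := h.cv_bound hδ hl (φ j) z T hr (s := 16 * r ^ 2) (by linarith) hj
    have h2 : r ^ 2 / (16 * r ^ 2) = (2 : ℝ)⁻¹ ^ 4 := by
      field_simp; norm_num
    rw [h2, Real.log_pow, Real.log_inv] at h1
    have hlog := Real.log_two_gt_d9
    push_cast at h1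
    have hcard1 : (1 : ℝ) ≤ T.card := by
      have : 0 < (T.card : ℝ) := lt_of_lt_of_le (by positivity) hcard
      have : 0 < T.card := by exact_mod_cast this
      exact_mod_cast this
    have h3 : (T.card : ℝ) * (4 * -Real.log 2 + 3 / 4) ≤ T.card * (-2) :=
      mul_le_mul_of_nonneg_left (by linarith) (by positivity)
    linarith
  exact le_of_tendsto hz hbound

end

end Pool.Agent.H172R3.CSG
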